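import Mathlib

set_option autoImplicit false

namespace Pool.Agent.Results.MP_739307_an.Counter

open Filter Topology ZeroAtInfty

section defs

variable {A : Type} [NonUnitalNormedRing A] [NormedSpace ℂ A] {J : Type} [Preorder J]

/-- A net `e` indexed by the directed set `J` is an approximate identity. -/
def IsApproxId (e : J → A) : Prop :=
  ∀ x : A, Tendsto (fun j => ‖e j * x - x‖) atTop (𝓝 0) ∧
    Tendsto (fun j => ‖x * e j - x‖) atTop (𝓝 0)

/-- The condition `C(a, λ, E)`. -/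
def Cond (a : A) (lam : ℂ) (e : J → A) : Prop :=
  ∃ r : J → A, IsApproxId (fun j => (lam • e j - a) * r j)

end defs

/-- finitely supported sequence: truncation of `g` to the indices below `n` -/
noncomputable def tr (n : ℕ) (g : ℕ → ℂ) : C₀(ℕ, ℂ) where
  toFun := fun i => if i < n then g i else 0
  continuous_toFun := continuous_of_discreteTopology
  zero_at_infty' := by
    rw [Filter.cocompact_eq_cofinite, Nat.cofinite_eq_atTop]
    refine tendsto_const_nhds.congr' ?_
    filter_upwards [eventually_ge_atTop n] with i hi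
    rw [if_neg (by omega)]

lemma tr_apply (n : ℕ) (g : ℕ → ℂ) (i : ℕ) : tr n g i = if i < n then g i else 0 := rfl

lemma norm_le (x : C₀(ℕ, ℂ)) (c : ℝ) (hc : 0 ≤ c) (h : ∀ i, ‖x i‖ ≤ c) : ‖x‖ ≤ c := by
  rw [← ZeroAtInftyContinuousMap.norm_toBCF_eq_norm]
  exact (BoundedContinuousFunction.norm_le hc).2 h

lemma le_norm (x : C₀(ℕ, ℂ)) (i : ℕ) : ‖x i‖ ≤ ‖x‖ := by
  rw [← ZeroAtInftyContinuousMap.norm_toBCF_eq_norm]
  exact x.toBCF.norm_coe_le_norm i

lemma lim0 (x : C₀(ℕ, ℂ)) : Tendsto (fun i => x i) atTop (𝓝 0) := by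
  have := x.zero_at_infty'
  rwa [Filter.cocompact_eq_cofinite, Nat.cofinite_eq_atTop] at this

lemma idF : IsApproxId (fun n : ℕ => tr n fun _ => 1) := by
  intro x
  have key : Tendsto (fun n => ‖tr n (fun _ => 1) * x - x‖) atTop (𝓝 0) := by
    rw [Metric.tendsto_atTop]
    intro ε hε
    obtain ⟨N, hN⟩ := Metric.tendsto_atTop.1 (lim0 x) (ε / 2) (by linarith)
    refine ⟨N, fun n hn => ?_⟩
    rw [Real.dist_eq, sub_zero, abs_norm]
    refine lt_of_le_of_lt (norm_le _ (ε / 2) (by linarith) fun i => ?_) (by linarith)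
    simp only [ZeroAtInftyContinuousMap.sub_apply, ZeroAtInftyContinuousMap.mul_apply, tr_apply]
    split_ifs with h
    · simp; linarith
    · have := hN i (by omega)
      rw [dist_zero_right] at this
      simpa using this.le
  exact ⟨key, by simpa only [mul_comm x] using key⟩

lemma idE : IsApproxId (fun n : ℕ => (1 + 1 / ((n : ℂ) + 1)) • tr n fun _ => (1 : ℂ)) := by
  intro x
  have key : Tendsto (fun n : ℕ => ‖((1 + 1 / ((n : ℂ) + 1)) • tr n fun _ => (1 : ℂ)) * x - x‖)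
      atTop (𝓝 0) := by
    have h1 := tendsto_iff_norm_sub_tendsto_zero.2 (idF x).1
    have h2 : Tendsto (fun n : ℕ => 1 + 1 / ((n : ℂ) + 1)) atTop (𝓝 (1 + 0)) :=
      tendsto_const_nhds.add (tendsto_one_div_add_atTop_nhds_zero_nat (𝕜 := ℂ))
    have h3 := h2.smul h1
    rw [add_zero, one_smul] at h3
    simp only [smul_mul_assoc]
    exact tendsto_iff_norm_sub_tendsto_zero.1 h3
  exact ⟨key, by simpa only [mul_comm x] using key⟩

theorem result : (¬ ∃ u : C₀(ℕ, ℂ), ∀ x, u * x = x) ∧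
    ∃ (a : C₀(ℕ, ℂ)) (lam : ℂ) (E F : ℕ → C₀(ℕ, ℂ)), IsApproxId E ∧ IsApproxId F ∧
      (∀ j, ‖E j‖ ≤ 2 ∧ ‖F j‖ ≤ 2) ∧ Cond a lam E ∧ ¬ Cond a lam F := by
  constructor
  · rintro ⟨u, hu⟩
    have h1 : ∀ i, u i = 1 := by
      intro i
      have := congrArg (fun y : C₀(ℕ, ℂ) => y i) (hu (tr (i + 1) fun _ => 1))
      simpa [tr_apply] using this
    have h2 := lim0 u
    simp only [h1] at h2
    exact one_ne_zero (tendsto_nhds_unique tendsto_const_nhds h2)
  have nF : ∀ n, ‖tr n fun _ => (1 : ℂ)‖ ≤ 1 := fun n => norm_le _ _ zero_le_one fun i => by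
    rw [tr_apply]; split_ifs <;> simp
  refine ⟨tr 1 fun _ => 1, 1, _, _, idE, idF, fun n => ⟨?_, by linarith [nF n]⟩, ?_, ?_⟩
  · rw [norm_smul]
    have h1 : ‖1 + 1 / ((n : ℂ) + 1)‖ ≤ 2 := by
      refine (norm_add_le _ _).trans ?_
      have : ‖1 / ((n : ℂ) + 1)‖ ≤ 1 := by
        rw [norm_div, norm_one, ← Nat.cast_succ, Complex.norm_natCast]
        exact div_le_one_of_le₀ (by simp) (by positivity)
      rw [norm_one]; linarith
    nlinarith [nF n, norm_nonneg (tr n fun _ => (1 : ℂ)), norm_nonneg (1 + 1 / ((n : ℂ) + 1))]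
  · refine ⟨fun n => tr n fun i => if i = 0 then (n : ℂ) + 1 else ((n : ℂ) + 1) / (n + 2), ?_⟩
    convert idF using 2 with n
    ext i
    have h1 : (n : ℂ) + 1 ≠ 0 := by exact_mod_cast Nat.succ_ne_zero n
    have h2 : (n : ℂ) + 2 ≠ 0 := by exact_mod_cast Nat.succ_ne_zero (n + 1)
    simp only [one_smul, ZeroAtInftyContinuousMap.sub_apply, ZeroAtInftyContinuousMap.mul_apply,
      ZeroAtInftyContinuousMap.smul_apply, tr_apply, smul_eq_mul]
    by_cases h : i < n
    · by_cases h0 : i = 0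
      · subst h0; simp only [h, if_true, Nat.lt_one_iff]; field_simp; ring
      · simp only [h, h0, if_true, if_false, Nat.lt_one_iff]; field_simp; ring
    · simp [h]
  · rintro ⟨r, hr⟩
    have h1 := (hr (tr 1 fun _ => 1)).1
    have h2 : ∀ᶠ n : ℕ in atTop, (1 : ℝ) ≤
        ‖((1 : ℂ) • (tr n fun _ => (1 : ℂ)) - tr 1 fun _ => 1) * r n * (tr 1 fun _ => 1) -
          tr 1 fun _ => 1‖ := by
      filter_upwards [eventually_gt_atTop 0] with n hn
      refine le_trans ?_ (le_norm _ 0)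
      simp [tr_apply, hn]
    have := ge_of_tendsto h1 h2
    linarith

end Pool.Agent.Results.MP_739307_an.Counter
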